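import Pool.Agent.W394.BQN.Stm

set_option autoImplicit false

noncomputable section

namespace Pool.Agent.W806.BQN

open Pool.Agent.W394.BQN BQ

/-- products of transvections -/
def EL (R : Type) [CommRing R] (n : ℕ) : Submonoid (Matrix (Fin n) (Fin n) R) :=
  Submonoid.closure {M | ∃ (i j : Fin n) (c : R), i ≠ j ∧ M = Matrix.transvection i j c}

section
variable {R : Type} [CommRing R]

lemma tr_mem {n : ℕ} (i j : Fin n) (c : R) (h : i ≠ j) : Matrix.transvection i j c ∈ EL R n :=
  Submonoid.subset_closure ⟨i, j, c, h, rfl⟩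

lemma EL_inv {n : ℕ} (M : Matrix (Fin n) (Fin n) R) (hM : M ∈ EL R n) :
    ∃ N ∈ EL R n, M * N = 1 ∧ N * M = 1 := by
  unfold EL at hM
  induction hM using Submonoid.closure_induction with
  | mem x hx =>
    obtain ⟨i, j, c, hij, rfl⟩ := hx
    refine ⟨Matrix.transvection i j (-c), tr_mem i j _ hij, ?_, ?_⟩
    · rw [Matrix.transvection_mul_transvection_same _ _ hij, add_neg_cancel,
        Matrix.transvection_zero]
    · rw [Matrix.transvection_mul_transvection_same _ _ hij, neg_add_cancel,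
        Matrix.transvection_zero]
  | one => exact ⟨1, one_mem _, by simp, by simp⟩
  | mul x y _ _ hx hy =>
    obtain ⟨a, ha, ha1, ha2⟩ := hx
    obtain ⟨b, hb, hb1, hb2⟩ := hy
    refine ⟨b * a, mul_mem hb ha, ?_, ?_⟩
    · rw [mul_assoc, ← mul_assoc y, hb1, one_mul, ha1]
    · rw [mul_assoc, ← mul_assoc a, ha2, one_mul, hb2]

lemma EL_det {n : ℕ} (M : Matrix (Fin n) (Fin n) R) (hM : M ∈ EL R n) : M.det = 1 := by
  unfold EL at hM
  induction hM using Submonoid.closure_induction with
  | mem x hx =>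
    obtain ⟨i, j, c, hij, rfl⟩ := hx
    exact Matrix.det_transvection_of_ne i j hij c
  | one => simp
  | mul x y _ _ hx hy => rw [Matrix.det_mul, hx, hy, mul_one]

lemma pairE {n : ℕ} (i j : Fin n) (hij : i ≠ j) (M : Matrix (Fin 2) (Fin 2) R) (hM : M ∈ E2 R) :
    ∃ E ∈ EL R n, ∀ (P : Matrix (Fin n) (Fin n) R) (a : Fin n),
      (P * E) a i = P a i * M 0 0 + P a j * M 1 0 ∧
      (P * E) a j = P a i * M 0 1 + P a j * M 1 1 ∧
      ∀ k, k ≠ i → k ≠ j → (P * E) a k = P a k := by
  unfold E2 at hM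
  induction hM using Submonoid.closure_induction with
  | mem x hx =>
    rcases hx with ⟨c, rfl⟩ | ⟨c, rfl⟩
    · refine ⟨Matrix.transvection i j c, tr_mem i j c hij, fun P a => ⟨?_, ?_, ?_⟩⟩
      · rw [Matrix.mul_transvection_apply_of_ne _ _ _ _ hij]
        simp
      · rw [Matrix.mul_transvection_apply_same]
        simp
        ring
      · intro k _ hk
        rw [Matrix.mul_transvection_apply_of_ne _ _ _ _ hk]
    · refine ⟨Matrix.transvection j i c, tr_mem j i c hij.symm, fun P a => ⟨?_, ?_, ?_⟩⟩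
      · rw [Matrix.mul_transvection_apply_same]
        simp
        ring
      · rw [Matrix.mul_transvection_apply_of_ne _ _ _ _ hij.symm]
        simp
      · intro k hk _
        rw [Matrix.mul_transvection_apply_of_ne _ _ _ _ hk]
  | one =>
    refine ⟨1, one_mem _, fun P a => ⟨?_, ?_, ?_⟩⟩
    · simp
    · simp
    · intro k _ _
      simp
  | mul x y _ _ hx hy =>
    obtain ⟨E, hE, hE1⟩ := hx
    obtain ⟨F, hF, hF1⟩ := hy
    refine ⟨E * F, mul_mem hE hF, fun P a => ?_⟩
    obtain ⟨a1, a2, a3⟩ := hE1 P a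
    obtain ⟨b1, b2, b3⟩ := hF1 (P * E) a
    rw [← mul_assoc]
    refine ⟨?_, ?_, ?_⟩
    · rw [b1, a1, a2]
      simp only [Matrix.mul_apply, Fin.sum_univ_two]
      ring
    · rw [b2, a1, a2]
      simp only [Matrix.mul_apply, Fin.sum_univ_two]
      ring
    · intro k hki hkj
      rw [b3 k hki hkj, a3 k hki hkj]

/-- the block matrix `diag (1, A)` -/
def blk {n : ℕ} (A : Matrix (Fin n) (Fin n) R) : Matrix (Fin (n + 1)) (Fin (n + 1)) R :=
  fun i j => Fin.cases (Fin.cases 1 (fun _ => 0) j) (fun i' => Fin.cases 0 (fun j' => A i' j') j) i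

lemma blk00 {n : ℕ} (A : Matrix (Fin n) (Fin n) R) : blk A 0 0 = 1 := rfl
lemma blk0s {n : ℕ} (A : Matrix (Fin n) (Fin n) R) (j : Fin n) : blk A 0 j.succ = 0 := rfl
lemma blks0 {n : ℕ} (A : Matrix (Fin n) (Fin n) R) (i : Fin n) : blk A i.succ 0 = 0 := rfl
lemma blkss {n : ℕ} (A : Matrix (Fin n) (Fin n) R) (i j : Fin n) :
    blk A i.succ j.succ = A i j := rfl

lemma blk_mul {n : ℕ} (A B : Matrix (Fin n) (Fin n) R) : blk (A * B) = blk A * blk B := by
  ext i j
  rw [Matrix.mul_apply, Fin.sum_univ_succ]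
  refine Fin.cases ?_ (fun i' => ?_) i
  · refine Fin.cases ?_ (fun j' => ?_) j
    · simp [blk00, blk0s, blks0]
    · simp [blk00, blk0s]
  · refine Fin.cases ?_ (fun j' => ?_) j
    · simp [blk00, blks0]
    · simp [blk0s, blks0, blkss, Matrix.mul_apply]

lemma blk_one {n : ℕ} : blk (1 : Matrix (Fin n) (Fin n) R) = 1 := by
  ext i j
  refine Fin.cases ?_ (fun i' => ?_) i
  · refine Fin.cases ?_ (fun j' => ?_) j
    · simp [blk00]
    · simp [blk0s, (Fin.succ_ne_zero j').symm]
  · refine Fin.cases ?_ (fun j' => ?_) j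
    · simp [blks0]
    · simp [blkss, Matrix.one_apply]

lemma blk_tr {n : ℕ} (i j : Fin n) (c : R) :
    blk (Matrix.transvection i j c) = Matrix.transvection i.succ j.succ c := by
  ext a b
  simp only [Matrix.transvection, Matrix.add_apply, Matrix.one_apply, Matrix.single_apply]
  refine Fin.cases ?_ (fun a' => ?_) a
  · refine Fin.cases ?_ (fun b' => ?_) b
    · simp [blk00]
    · simp [blk0s, (Fin.succ_ne_zero b').symm]
  · refine Fin.cases ?_ (fun b' => ?_) b
    · simp [blks0]
    · simp [blkss, Matrix.one_apply, Matrix.single_apply]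

lemma blk_mem {n : ℕ} (A : Matrix (Fin n) (Fin n) R) (hA : A ∈ EL R n) :
    blk A ∈ EL R (n + 1) := by
  unfold EL at hA
  induction hA using Submonoid.closure_induction with
  | mem x hx =>
    obtain ⟨i, j, c, hij, rfl⟩ := hx
    rw [blk_tr]
    exact tr_mem _ _ _ (fun h => hij (Fin.succ_injective _ h))
  | one => rw [blk_one]; exact one_mem _
  | mul x y _ _ hx hy => rw [blk_mul]; exact mul_mem hx hy

lemma col {n : ℕ} (S : Finset (Fin (n + 1))) (hS : (0 : Fin (n + 1)) ∉ S)
    (P : Matrix (Fin (n + 1)) (Fin (n + 1)) R) (h00 : P 0 0 = 1) (h0 : ∀ j, j ≠ 0 → P 0 j = 0) :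
    ∃ E ∈ EL R (n + 1), ∀ i j, (E * P) i j = if i ∈ S ∧ j = 0 then 0 else P i j := by
  classical
  induction S using Finset.induction_on with
  | empty => exact ⟨1, one_mem _, fun i j => by simp⟩
  | insert a S ha ih =>
    have ha0 : a ≠ 0 := fun h => hS (by rw [h]; exact Finset.mem_insert_self _ _)
    obtain ⟨E, hE, hE1⟩ := ih (fun h => hS (Finset.mem_insert_of_mem h))
    refine ⟨Matrix.transvection a 0 (-(P a 0)) * E, mul_mem (tr_mem _ _ _ ha0) hE, fun i j => ?_⟩
    rw [mul_assoc]
    have hz : (E * P) 0 j = P 0 j := by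
      rw [hE1, if_neg]
      rintro ⟨h, -⟩
      exact hS (Finset.mem_insert_of_mem h)
    by_cases hia : i = a
    · subst hia
      rw [Matrix.transvection_mul_apply_same, hz, hE1, if_neg (fun h => ha h.1)]
      by_cases hj : j = 0
      · subst hj
        rw [h00, if_pos ⟨Finset.mem_insert_self _ _, rfl⟩]
        ring
      · rw [h0 j hj, if_neg (fun h => hj h.2)]
        ring
    · rw [Matrix.transvection_mul_apply_of_ne _ _ _ _ hia, hE1]
      have : (i ∈ insert a S ∧ j = 0) ↔ (i ∈ S ∧ j = 0) := by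
        rw [Finset.mem_insert]
        constructor
        · rintro ⟨h | h, h'⟩
          · exact absurd h hia
          · exact ⟨h, h'⟩
        · rintro ⟨h, h'⟩
          exact ⟨Or.inr h, h'⟩
      simp only [this]

end

section
variable {R : Type} [CommRing R] [IsDomain R] [IsPrincipalIdealRing R]

lemma two (h2 : E2T R) (a b : R) : ∃ M ∈ E2 R, a * M 0 1 + b * M 1 1 = 0 := by
  by_cases hab : a = 0 ∧ b = 0
  · exact ⟨1, one_mem _, by rw [hab.1, hab.2]; ring⟩
  · obtain ⟨g, hg⟩ := IsPrincipalIdealRing.principal (Ideal.span ({a, b} : Set R))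
    rw [Ideal.submodule_span_eq] at hg
    have ha : a ∈ Ideal.span {g} := by rw [← hg]; exact Ideal.subset_span (by simp)
    have hb : b ∈ Ideal.span {g} := by rw [← hg]; exact Ideal.subset_span (by simp)
    have hgm : g ∈ Ideal.span ({a, b} : Set R) := by rw [hg]; exact Ideal.mem_span_singleton_self g
    obtain ⟨a', ha'⟩ := Ideal.mem_span_singleton'.1 ha
    obtain ⟨b', hb'⟩ := Ideal.mem_span_singleton'.1 hb
    obtain ⟨x, y, hxy⟩ := Ideal.mem_span_pair.1 hgm
    have hg0 : g ≠ 0 := by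
      rintro rfl
      apply hab
      exact ⟨by rw [← ha', mul_zero], by rw [← hb', mul_zero]⟩
    have hc : IsCoprime a' b' := by
      refine ⟨x, y, ?_⟩
      apply mul_right_cancel₀ hg0
      rw [one_mul, add_mul, mul_assoc, mul_assoc, ha', hb', hxy]
    obtain ⟨M, hM, hM1, hM2⟩ := h2 a' b' hc
    refine ⟨M, hM, ?_⟩
    rw [← ha', ← hb']
    calc a' * g * M 0 1 + b' * g * M 1 1 = g * (a' * M 0 1 + b' * M 1 1) := by ring
      _ = 0 := by rw [hM2, mul_zero]

lemma clear (h2 : E2T R) {n : ℕ} (S : Finset (Fin (n + 1))) (hS : (0 : Fin (n + 1)) ∉ S)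
    (P : Matrix (Fin (n + 1)) (Fin (n + 1)) R) :
    ∃ E ∈ EL R (n + 1), ∀ j ∈ S, (P * E) 0 j = 0 := by
  classical
  induction S using Finset.induction_on with
  | empty => exact ⟨1, one_mem _, by simp⟩
  | insert a S ha ih =>
    have ha0 : (0 : Fin (n + 1)) ≠ a := fun h => hS (by rw [h]; exact Finset.mem_insert_self _ _)
    obtain ⟨E, hE, hE1⟩ := ih (fun h => hS (Finset.mem_insert_of_mem h))
    obtain ⟨M, hM, hM1⟩ := two h2 ((P * E) 0 0) ((P * E) 0 a)
    obtain ⟨F, hF, hF1⟩ := pairE 0 a ha0 M hM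
    obtain ⟨f1, f2, f3⟩ := hF1 (P * E) 0
    refine ⟨E * F, mul_mem hE hF, fun j hj => ?_⟩
    rw [← mul_assoc]
    rcases Finset.mem_insert.1 hj with rfl | hj
    · rw [f2, hM1]
    · rw [f3 j (fun h => hS (Finset.mem_insert_of_mem (h ▸ hj))) (fun h => ha (h ▸ hj))]
      exact hE1 j hj

theorem mem_EL (h2 : E2T R) : ∀ (n : ℕ) (M : Matrix (Fin (n + 1)) (Fin (n + 1)) R), M.det = 1 →
    M ∈ EL R (n + 1) := by
  classical
  intro n
  induction n with
  | zero =>
    intro M hM
    have : M = 1 := by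
      ext i j
      have hi : i = 0 := Fin.ext (by omega)
      have hj : j = 0 := Fin.ext (by omega)
      subst hi hj
      rw [Matrix.det_fin_one] at hM
      rw [hM, Matrix.one_apply_eq]
    rw [this]
    exact one_mem _
  | succ n ih =>
    intro M hM
    obtain ⟨E, hE, hE1⟩ := clear h2 (Finset.univ.erase 0) (Finset.notMem_erase _ _) M
    have hE2 : ∀ j : Fin (n + 2), j ≠ 0 → (M * E) 0 j = 0 := fun j hj =>
      hE1 j (Finset.mem_erase.2 ⟨hj, Finset.mem_univ _⟩)
    have hdet : (M * E).det = 1 := by rw [Matrix.det_mul, hM, EL_det E hE, mul_one]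
    have hu : IsCoprime ((M * E) 0 0) ((M * E) 0 1) := by
      rw [hE2 1 (by simp), isCoprime_zero_right]
      rw [Matrix.det_succ_row_zero, Fin.sum_univ_succ] at hdet
      rw [Finset.sum_eq_zero (fun i _ => by rw [hE2 _ (Fin.succ_ne_zero i)]; ring), add_zero] at hdet
      simp only [Fin.val_zero, pow_zero, one_mul] at hdet
      exact IsUnit.of_mul_eq_one _ hdet
    obtain ⟨N, hN, hN1, hN2⟩ := h2 _ _ hu
    obtain ⟨F, hF, hF1⟩ := pairE (0 : Fin (n + 2)) 1 (by simp) N hN
    obtain ⟨f1, f2, f3⟩ := hF1 (M * E) 0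
    set P := M * E * F with hP
    have hP00 : P 0 0 = 1 := by rw [f1, hN1]
    have hP0 : ∀ j, j ≠ 0 → P 0 j = 0 := by
      intro j hj
      by_cases hj1 : j = 1
      · rw [hj1, f2, hN2]
      · rw [f3 j hj hj1, hE2 j hj]
    have hPdet : P.det = 1 := by rw [hP, Matrix.det_mul, hdet, EL_det F hF, mul_one]
    obtain ⟨K, hK, hK1⟩ := col (Finset.univ.erase 0) (Finset.notMem_erase _ _) P hP00 hP0
    let P' : Matrix (Fin (n + 1)) (Fin (n + 1)) R := fun i j => P i.succ j.succ
    have hKP : K * P = blk P' := by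
      ext i j
      rw [hK1]
      refine Fin.cases ?_ (fun i' => ?_) i
      · refine Fin.cases ?_ (fun j' => ?_) j
        · simp [blk00, hP00]
        · rw [hP0 _ (Fin.succ_ne_zero j')]
          simp [blk0s]
      · refine Fin.cases ?_ (fun j' => ?_) j
        · simp [blks0]
        · rw [if_neg (fun h => Fin.succ_ne_zero j' h.2)]
          rfl
    have hP' : P'.det = 1 := by
      have h1 : (K * P).det = 1 := by rw [Matrix.det_mul, EL_det K hK, hPdet, mul_one]
      rw [hKP, Matrix.det_succ_row_zero, Fin.sum_univ_succ] at h1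
      rw [Finset.sum_eq_zero (fun i _ => by rw [blk0s]; ring), add_zero, blk00] at h1
      simp only [Fin.val_zero, pow_zero, one_mul] at h1
      have h3 : (blk P').submatrix Fin.succ (Fin.succAbove 0) = P' := by
        ext i j
        simp [Matrix.submatrix_apply, blkss]
      rwa [h3] at h1
    have hblk : blk P' ∈ EL R (n + 2) := blk_mem _ (ih P' hP')
    obtain ⟨K', hK', k1, k2⟩ := EL_inv K hK
    obtain ⟨F', hF', g1, g2⟩ := EL_inv F hF
    obtain ⟨E', hE', e1, e2⟩ := EL_inv E hE
    have hfin : M = K' * blk P' * F' * E' := by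
      rw [← hKP, hP, ← mul_assoc K', k2, one_mul, mul_assoc (M * E) F F', g1, mul_one,
        mul_assoc M E E', e1, mul_one]
    rw [hfin]
    exact mul_mem (mul_mem (mul_mem hK' hblk) hF') hE'

end

theorem t_LIFT0 : S_LIFT0 := by
  intro R _ _ _ h2 A _ q hq s M hM
  have hmem : M ∈ EL R s := by
    cases s with
    | zero =>
      have : M = 1 := Subsingleton.elim _ _
      rw [this]
      exact one_mem _
    | succ n => exact mem_EL h2 n M hM
  have : N.Lift q M := by
    unfold EL at hmem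
    induction hmem using Submonoid.closure_induction with
    | mem x hx =>
      obtain ⟨i, j, c, hij, rfl⟩ := hx
      exact N.Lift.transvection hq i j hij c
    | one => exact N.Lift.one q
    | mul x y _ _ hx hy =>
      exact (hx (EL_det x ‹_›)).mul (hy (EL_det y ‹_›))
  exact this

end Pool.Agent.W806.BQN
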